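import Pool.Agent.Helper78.W3.StD

/-!
# Project W3, module NF: normal form of the operator of a matrix
-/

set_option autoImplicit false

namespace Pool.Agent.Helper6.W3

open Pool.Agent.Helper78.W3
open Pool.Agent.Helper14.W3
open Pool.Agent.Helper14.CV (Homog EqC act Tl)

namespace Nf

/-- Substitution in the second variable. -/
private def Vy {q q' : ℕ} (f : ZMod q' → ZMod q') : Module.End (ZMod 3) (Fn3 q q') where
  toFun F x y := F x (f y)
  map_add' _ _ := rfl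
  map_smul' _ _ := rfl

/-- Substitution in the first variable. -/
private def Vx {q q' : ℕ} (f : ZMod q → ZMod q) : Module.End (ZMod 3) (Fn3 q q') where
  toFun F x y := F (f x) y
  map_add' _ _ := rfl
  map_smul' _ _ := rfl

/-- Compatible with all congruences modulo `3^i`. -/
private def Lip {q : ℕ} (t : ZMod q → ZMod q) : Prop :=
  ∀ (i : ℕ) (y y' : ZMod q), (3 : ZMod q) ^ i ∣ y - y' → (3 : ZMod q) ^ i ∣ t y - t y'

private theorem Lip.const {q : ℕ} (c : ZMod q) : Lip (fun _ : ZMod q => c) := by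
  intro i y y' _
  rw [sub_self]
  exact dvd_zero _

private theorem Lip.idm {q : ℕ} : Lip (fun y : ZMod q => y) := fun _ _ _ h => h

private theorem Lip.add {q : ℕ} {t u : ZMod q → ZMod q} (ht : Lip t) (hu : Lip u) :
    Lip (fun y => t y + u y) := by
  intro i y y' h
  have e : t y + u y - (t y' + u y') = (t y - t y') + (u y - u y') := by ring
  rw [e]
  exact dvd_add (ht i y y' h) (hu i y y' h)

private theorem Lip.mul {q : ℕ} {t u : ZMod q → ZMod q} (ht : Lip t) (hu : Lip u) :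
    Lip (fun y => t y * u y) := by
  intro i y y' h
  have e : t y * u y - t y' * u y' = (t y - t y') * u y + t y' * (u y - u y') := by ring
  rw [e]
  exact dvd_add ((ht i y y' h).mul_right _) ((hu i y y' h).mul_left _)

private theorem Lip.inv {q : ℕ} {t : ZMod q → ZMod q} (ht : Lip t) (h1 : ∀ y, t y * (t y)⁻¹ = 1) :
    Lip (fun y => (t y)⁻¹) := by
  intro i y y' h
  have e : (t y)⁻¹ - (t y')⁻¹ = (t y - t y') * (-((t y)⁻¹ * (t y')⁻¹)) := by
    linear_combination (-(t y)⁻¹) * (h1 y') + (t y')⁻¹ * (h1 y)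
  rw [e]
  exact (ht i y y' h).mul_right _

/-- `1 + 3 c` is a unit. -/
private theorem unit1 (n : ℕ) (c : ZMod (3 ^ n)) : IsUnit (1 + 3 * c) := by
  have h : (3 : ZMod (3 ^ n)) ^ n = 0 := by
    have h1 := ZMod.natCast_self (3 ^ n)
    rwa [Nat.cast_pow, Nat.cast_ofNat] at h1
  have hn : IsNilpotent (3 * c : ZMod (3 ^ n)) := ⟨n, by rw [mul_pow, h, zero_mul]⟩
  exact hn.isUnit_one_add

private theorem unitA (n : ℕ) (a : ℤ) (ha : ¬ 3 ∣ a) (z : ZMod (3 ^ n)) :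
    IsUnit ((a : ZMod (3 ^ n)) + 3 * z) := by
  have h3 : a % 3 = 1 ∨ a % 3 = 2 := by omega
  rcases h3 with h | h
  · obtain ⟨k, hk⟩ : ∃ k, a = 1 + 3 * k := ⟨a / 3, by omega⟩
    have e : (a : ZMod (3 ^ n)) + 3 * z = 1 + 3 * ((k : ZMod (3 ^ n)) + z) := by
      rw [hk]
      push_cast
      ring
    rw [e]
    exact unit1 n _
  · obtain ⟨k, hk⟩ : ∃ k, a = -1 + 3 * k := ⟨(a + 1) / 3, by omega⟩
    have e : (a : ZMod (3 ^ n)) + 3 * z = -(1 + 3 * (-(k : ZMod (3 ^ n)) - z)) := by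
      rw [hk]
      push_cast
      ring
    rw [e]
    exact (unit1 n _).neg

private theorem invA (n : ℕ) (a : ℤ) (ha : ¬ 3 ∣ a) (c x : ZMod (3 ^ n)) :
    ((a : ZMod (3 ^ n)) + 9 * c * x) * ((a : ZMod (3 ^ n)) + 9 * c * x)⁻¹ = 1 := by
  have e : (a : ZMod (3 ^ n)) + 9 * c * x = (a : ZMod (3 ^ n)) + 3 * (3 * c * x) := by ring
  rw [e]
  exact ZMod.mul_inv_of_unit _ (unitA n a ha _)

private theorem inv4 (n : ℕ) : (4 : ZMod (3 ^ n)) * (4 : ZMod (3 ^ n))⁻¹ = 1 := by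
  refine ZMod.mul_inv_of_unit _ ?_
  have e : (4 : ZMod (3 ^ n)) = 1 + 3 * 1 := by norm_num
  rw [e]
  exact unit1 n _

private theorem frac {R : Type} [CommRing R] {p v a w : R} (e1 : v * a = 1) (e2 : p = w * v) :
    p * a = w := by
  linear_combination a * e2 + w * e1

section main

variable {r s : ℕ}

/-- abbreviation for the operators -/
private abbrev En (r s : ℕ) : Type := Module.End (ZMod 3) (Fn3 (3 ^ r) (3 ^ s))

private theorem oD_apply (F : Fn3 (3 ^ r) (3 ^ s)) (x : ZMod (3 ^ r)) (y : ZMod (3 ^ s)) :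
    (oD : En r s) F x y = F ((4 : ZMod (3 ^ r))⁻¹ * x) (4 * y) := by
  change F ((((0 : ℤ) : ZMod (3 ^ r)) + ((1 : ℤ) : ZMod (3 ^ r)) * x) *
      (((4 : ℤ) : ZMod (3 ^ r)) + 9 * ((0 : ℤ) : ZMod (3 ^ r)) * x)⁻¹)
    ((((0 : ℤ) : ZMod (3 ^ s)) + ((4 : ℤ) : ZMod (3 ^ s)) * y) *
      (((1 : ℤ) : ZMod (3 ^ s)) + 9 * ((0 : ℤ) : ZMod (3 ^ s)) * y)⁻¹) = _
  have h1 : (((0 : ℤ) : ZMod (3 ^ r)) + ((1 : ℤ) : ZMod (3 ^ r)) * x) *
      (((4 : ℤ) : ZMod (3 ^ r)) + 9 * ((0 : ℤ) : ZMod (3 ^ r)) * x)⁻¹ =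
      (4 : ZMod (3 ^ r))⁻¹ * x := by
    have e : ((4 : ℤ) : ZMod (3 ^ r)) + 9 * ((0 : ℤ) : ZMod (3 ^ r)) * x = 4 := by
      push_cast
      ring
    rw [e]
    push_cast
    ring
  have h2 : (((0 : ℤ) : ZMod (3 ^ s)) + ((4 : ℤ) : ZMod (3 ^ s)) * y) *
      (((1 : ℤ) : ZMod (3 ^ s)) + 9 * ((0 : ℤ) : ZMod (3 ^ s)) * y)⁻¹ = 4 * y := by
    have e : ((1 : ℤ) : ZMod (3 ^ s)) + 9 * ((0 : ℤ) : ZMod (3 ^ s)) * y = 1 := by
      push_cast
      ring
    rw [e, ZMod.inv_one]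
    push_cast
    ring
  rw [h1, h2]

private theorem oD_pow (m : ℕ) (F : Fn3 (3 ^ r) (3 ^ s)) (x : ZMod (3 ^ r)) (y : ZMod (3 ^ s)) :
    ((oD : En r s) ^ m) F x y = F ((4 : ZMod (3 ^ r))⁻¹ ^ m * x) (4 ^ m * y) := by
  induction m generalizing F x y with
  | zero =>
    rw [pow_zero, pow_zero, pow_zero, one_mul, one_mul]
    rfl
  | succ m ih =>
    rw [pow_succ]
    change ((oD : En r s) ^ m) (oD F) x y = _
    rw [ih, oD_apply]
    congr 1 <;> ring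

private theorem dX_pow (n : ℕ) (F : Fn3 (3 ^ r) (3 ^ s)) (x : ZMod (3 ^ r)) (y : ZMod (3 ^ s)) :
    ((1 + dX : En r s) ^ n) F x y = F (x + (n : ZMod (3 ^ r))) y := by
  induction n generalizing F x y with
  | zero =>
    rw [pow_zero, Nat.cast_zero, add_zero]
    rfl
  | succ n ih =>
    rw [pow_succ]
    change ((1 + dX : En r s) ^ n) ((1 + dX : En r s) F) x y = _
    rw [ih]
    change F (x + (n : ZMod (3 ^ r))) y +
      (F (x + (n : ZMod (3 ^ r)) + 1) y - F (x + (n : ZMod (3 ^ r))) y) = _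
    rw [add_sub_cancel]
    congr 1
    push_cast
    ring

private theorem dY_pow (n : ℕ) (F : Fn3 (3 ^ r) (3 ^ s)) (x : ZMod (3 ^ r)) (y : ZMod (3 ^ s)) :
    ((1 + dY : En r s) ^ n) F x y = F x (y + (n : ZMod (3 ^ s))) := by
  induction n generalizing F x y with
  | zero =>
    rw [pow_zero, Nat.cast_zero, add_zero]
    rfl
  | succ n ih =>
    rw [pow_succ]
    change ((1 + dY : En r s) ^ n) ((1 + dY : En r s) F) x y = _
    rw [ih]
    change F x (y + (n : ZMod (3 ^ s))) +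
      (F x (y + (n : ZMod (3 ^ s)) + 1) - F x (y + (n : ZMod (3 ^ s)))) = _
    rw [add_sub_cancel]
    congr 1
    push_cast
    ring

/-- The rules of LOW0 which are used. -/
private structure Rules (r s : ℕ) : Prop where
  mul : ∀ (O O' : En r s) (k k' : ℤ), Lw O k → Lw O' k' → Lw (O * O') (k + k')
  add : ∀ (O O' : En r s) (k : ℤ), Lw O k → Lw O' k → Lw (O + O') k
  le : ∀ (O : En r s) (k k' : ℤ), k' ≤ k → Lw O k → Lw O k'
  mono : ∀ d d' : ℤ, d ≤ d' → (Wd3 d : Submodule (ZMod 3) (Fn3 (3 ^ r) (3 ^ s))) ≤ Wd3 d'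
  one : Lw (1 : En r s) 0
  x1 : Lw (dX : En r s) 1
  y1 : Lw (dY : En r s) 1

private theorem rules (h : S3Low0) (r s : ℕ) : Rules r s := by
  obtain ⟨h1, h2, _, h4, h5, h6, h7, h8, _⟩ := h r s
  exact ⟨h1, h2, h4, h5, h6, h7, h8⟩

private theorem Rules.pow (R : Rules r s) {O : En r s} (h : Lw O 0) (n : ℕ) : Lw (O ^ n) 0 := by
  induction n with
  | zero =>
    rw [pow_zero]
    exact R.one
  | succ n ih =>
    rw [pow_succ]
    have := R.mul _ _ _ _ ih h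
    rwa [add_zero] at this

/-- Part (a). -/
private theorem lowD (hSubB : S3SubB) (R : Rules r s) : Lw (oD - 1 : En r s) 2 := by
  have hx : Lw (Vx (fun x => (4 : ZMod (3 ^ r))⁻¹ * x) - 1 : En r s) 2 := by
    intro d F hF
    have h := (hSubB r s).2 (-(4 : ZMod (3 ^ r))⁻¹) d F hF
    have e : (Vx (fun x => (4 : ZMod (3 ^ r))⁻¹ * x) - 1 : En r s) F =
        fun x y => F (x + 3 * (-(4 : ZMod (3 ^ r))⁻¹) * x) y - F x y := by
      funext x y
      change F ((4 : ZMod (3 ^ r))⁻¹ * x) y - F x y = _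
      have e2 : x + 3 * (-(4 : ZMod (3 ^ r))⁻¹) * x = (4 : ZMod (3 ^ r))⁻¹ * x := by
        linear_combination (-x) * inv4 r
      rw [e2]
    rw [e]
    exact h
  have hy : Lw (Vy (fun y => (4 : ZMod (3 ^ s)) * y) - 1 : En r s) 2 := by
    intro d F hF
    have h := (hSubB r s).1 1 d F hF
    have e : (Vy (fun y => (4 : ZMod (3 ^ s)) * y) - 1 : En r s) F =
        fun x y => F x (y + 3 * 1 * y) - F x y := by
      funext x y
      change F x (4 * y) - F x y = _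
      have e2 : y + 3 * 1 * y = 4 * y := by ring
      rw [e2]
    rw [e]
    exact h
  have hx0 : Lw (Vx (fun x => (4 : ZMod (3 ^ r))⁻¹ * x) : En r s) 0 := by
    have h := R.add _ _ _ (R.le _ _ 0 (by norm_num) hx) R.one
    rwa [sub_add_cancel] at h
  have h1 := R.mul _ _ _ _ hx0 hy
  rw [zero_add] at h1
  have h2 := R.add _ _ _ h1 hx
  have e : (oD - 1 : En r s) = Vx (fun x => (4 : ZMod (3 ^ r))⁻¹ * x) *
      (Vy (fun y => (4 : ZMod (3 ^ s)) * y) - 1) +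
      (Vx (fun x => (4 : ZMod (3 ^ r))⁻¹ * x) - 1) := by
    refine LinearMap.ext fun F => ?_
    funext x y
    change (oD : En r s) F x y - F x y = (F ((4 : ZMod (3 ^ r))⁻¹ * x) (4 * y) -
      F ((4 : ZMod (3 ^ r))⁻¹ * x) y) + (F ((4 : ZMod (3 ^ r))⁻¹ * x) y - F x y)
    rw [oD_apply]
    ring
  rw [e]
  exact h2

/-- The normal form preserves degrees. -/
private theorem low_nf (hSubB : S3SubB) (R : Rules r s) (m β γ : ℕ) :
    Lw (oD ^ m * (1 + dX) ^ β * (1 + dY) ^ γ : En r s) 0 := by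
  have h1 : Lw (oD : En r s) 0 := by
    have h := R.add _ _ _ (R.le _ _ 0 (by norm_num) (lowD hSubB R)) R.one
    rwa [sub_add_cancel] at h
  have h2 : Lw (1 + dX : En r s) 0 := R.add _ _ _ R.one (R.le _ _ 0 (by norm_num) R.x1)
  have h3 : Lw (1 + dY : En r s) 0 := R.add _ _ _ R.one (R.le _ _ 0 (by norm_num) R.y1)
  have h4 := R.mul _ _ _ _ (R.mul _ _ _ _ (R.pow h1 m) (R.pow h2 β)) (R.pow h3 γ)
  simpa using h4

private theorem nf_apply (m β γ : ℕ) (F : Fn3 (3 ^ r) (3 ^ s)) (x : ZMod (3 ^ r))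
    (y : ZMod (3 ^ s)) : (oD ^ m * (1 + dX) ^ β * (1 + dY) ^ γ : En r s) F x y =
      F ((4 : ZMod (3 ^ r))⁻¹ ^ m * x + β) (4 ^ m * y + γ) := by
  change ((oD : En r s) ^ m) (((1 + dX : En r s) ^ β) (((1 + dY : En r s) ^ γ) F)) x y = _
  rw [oD_pow, dX_pow, dY_pow]

private theorem main (hSubA : S3SubA) (hSubB : S3SubB) (R : Rules r s) (a b c d : ℤ)
    (m β γ : ℕ) (ha : ¬ 3 ∣ a) (hd : ¬ 3 ∣ d) (h1 : 9 ∣ d * 4 ^ m - a) (h2 : 9 ∣ b - β * a)
    (h3 : 9 ∣ c - γ * d) :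
    Lw (op3 a b c d - oD ^ m * (1 + dX) ^ β * (1 + dY) ^ γ : En r s) 7 := by
  obtain ⟨d1, hd1⟩ := h1
  obtain ⟨b1, hb1⟩ := h2
  obtain ⟨c1, hc1⟩ := h3
  intro e F hF
  set H : Fn3 (3 ^ r) (3 ^ s) := (oD ^ m * (1 + dX) ^ β * (1 + dY) ^ γ : En r s) F with hH
  have hHW : H ∈ (Wd3 e : Submodule (ZMod 3) (Fn3 (3 ^ r) (3 ^ s))) := by
    have := low_nf hSubB R m β γ e F hF
    rwa [sub_zero] at this
  -- the two substitutions
  let t : ZMod (3 ^ r) → ZMod (3 ^ r) := fun x => 4 ^ m * (((b1 : ZMod (3 ^ r)) +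
    d1 * ((4 : ZMod (3 ^ r))⁻¹ ^ m) * x + (-c) * (x * ((4 : ZMod (3 ^ r))⁻¹ ^ m * x + β))) *
      ((a : ZMod (3 ^ r)) + 9 * c * x)⁻¹)
  let t' : ZMod (3 ^ s) → ZMod (3 ^ s) := fun y => (4 : ZMod (3 ^ s))⁻¹ ^ m *
    (((c1 : ZMod (3 ^ s)) + (-d1) * y + (-b) * (y * (4 ^ m * y + γ))) *
      ((d : ZMod (3 ^ s)) + 9 * b * y)⁻¹)
  have ht : Lip t := by
    refine (Lip.const _).mul (((((Lip.const _).add ((Lip.const _).mul Lip.idm)).add
      ((Lip.const _).mul (Lip.idm.mul (((Lip.const _).mul Lip.idm).add (Lip.const _)))))).mul ?_)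
    exact Lip.inv ((Lip.const _).add ((Lip.const _).mul Lip.idm)) fun x => invA r a ha _ x
  have ht' : Lip t' := by
    refine (Lip.const _).mul (((((Lip.const _).add ((Lip.const _).mul Lip.idm)).add
      ((Lip.const _).mul (Lip.idm.mul (((Lip.const _).mul Lip.idm).add (Lip.const _)))))).mul ?_)
    exact Lip.inv ((Lip.const _).add ((Lip.const _).mul Lip.idm)) fun x => invA s d hd _ x
  have k4r : (4 : ZMod (3 ^ r)) ^ m * (4 : ZMod (3 ^ r))⁻¹ ^ m = 1 := by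
    rw [← mul_pow, inv4, one_pow]
  have k4s : (4 : ZMod (3 ^ s)) ^ m * (4 : ZMod (3 ^ s))⁻¹ ^ m = 1 := by
    rw [← mul_pow, inv4, one_pow]
  have er1 : (d : ZMod (3 ^ r)) * 4 ^ m - a = 9 * d1 := by exact_mod_cast congrArg (Int.cast : ℤ → ZMod (3 ^ r)) hd1
  have er2 : (b : ZMod (3 ^ r)) - β * a = 9 * b1 := by exact_mod_cast congrArg (Int.cast : ℤ → ZMod (3 ^ r)) hb1
  have es1 : (d : ZMod (3 ^ s)) * 4 ^ m - a = 9 * d1 := by exact_mod_cast congrArg (Int.cast : ℤ → ZMod (3 ^ s)) hd1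
  have es2 : (c : ZMod (3 ^ s)) - γ * d = 9 * c1 := by exact_mod_cast congrArg (Int.cast : ℤ → ZMod (3 ^ s)) hc1
  have hX : ∀ x : ZMod (3 ^ r), ((b : ZMod (3 ^ r)) + d * x) * ((a : ZMod (3 ^ r)) + 9 * c * x)⁻¹ =
      (4 : ZMod (3 ^ r))⁻¹ ^ m * (x + 9 * t x) + β := by
    intro x
    have hi := invA r a ha (c : ZMod (3 ^ r)) x
    refine frac hi ?_
    simp only [t]
    generalize ((a : ZMod (3 ^ r)) + 9 * c * x)⁻¹ = w at hi ⊢
    generalize (4 : ZMod (3 ^ r))⁻¹ ^ m = κ at k4r ⊢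
    generalize (4 : ZMod (3 ^ r)) ^ m = l at k4r er1 ⊢
    linear_combination er2 + κ * x * er1 - d * x * k4r -
      9 * (b1 + d1 * κ * x + (-c) * (x * (κ * x + β))) * w * (a + 9 * c * x) * k4r -
      9 * (b1 + d1 * κ * x + (-c) * (x * (κ * x + β))) * hi
  have hY : ∀ y : ZMod (3 ^ s), ((c : ZMod (3 ^ s)) + a * y) * ((d : ZMod (3 ^ s)) + 9 * b * y)⁻¹ =
      4 ^ m * (y + 9 * t' y) + γ := by
    intro y
    have hi := invA s d hd (b : ZMod (3 ^ s)) y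
    refine frac hi ?_
    simp only [t']
    generalize ((d : ZMod (3 ^ s)) + 9 * b * y)⁻¹ = w at hi ⊢
    generalize (4 : ZMod (3 ^ s))⁻¹ ^ m = κ at k4s ⊢
    generalize (4 : ZMod (3 ^ s)) ^ m = l at k4s es1 ⊢
    linear_combination es2 - y * es1 -
      9 * (c1 + (-d1) * y + (-b) * (y * (l * y + γ))) * w * (d + 9 * b * y) * k4s -
      9 * (c1 + (-d1) * y + (-b) * (y * (l * y + γ))) * hi
  -- the two steps
  have s1 := (hSubA r s).1 t' ht' e H hHW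
  set G : Fn3 (3 ^ r) (3 ^ s) := fun x y => H x (y + 9 * t' y) with hG
  have hGW : G ∈ (Wd3 e : Submodule (ZMod 3) (Fn3 (3 ^ r) (3 ^ s))) := by
    have h := Submodule.add_mem _ (R.mono (e - 7) e (by omega) s1) hHW
    have e1 : ((fun x y => H x (y + 9 * t' y) - H x y) + H : Fn3 (3 ^ r) (3 ^ s)) = G := by
      funext x y
      change H x (y + 9 * t' y) - H x y + H x y = H x (y + 9 * t' y)
      ring
    rwa [e1] at h
  have s2 := (hSubA r s).2 t ht e G hGW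
  have h := Submodule.add_mem _ s2 s1
  have e1 : (op3 a b c d - oD ^ m * (1 + dX) ^ β * (1 + dY) ^ γ : En r s) F =
      (fun x y => G (x + 9 * t x) y - G x y) + (fun x y => H x (y + 9 * t' y) - H x y) := by
    funext x y
    change F (((b : ZMod (3 ^ r)) + d * x) * ((a : ZMod (3 ^ r)) + 9 * c * x)⁻¹)
      (((c : ZMod (3 ^ s)) + a * y) * ((d : ZMod (3 ^ s)) + 9 * b * y)⁻¹) - H x y =
      (H (x + 9 * t x) (y + 9 * t' y) - H x (y + 9 * t' y)) + (H x (y + 9 * t' y) - H x y)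
    rw [hX, hY]
    have e2 : H (x + 9 * t x) (y + 9 * t' y) =
        F ((4 : ZMod (3 ^ r))⁻¹ ^ m * (x + 9 * t x) + β) (4 ^ m * (y + 9 * t' y) + γ) :=
      nf_apply m β γ F _ _
    rw [e2]
    ring
  rw [e1]
  exact h

end main

end Nf

open Nf in
/-- NF. -/
theorem hNf (hLow0 : S3Low0) (hSubA : S3SubA) (hSubB : S3SubB) : S3Nf := by
  intro r s
  have R := rules hLow0 r s
  exact ⟨lowD hSubB R, fun a b c d m β γ ha hd h1 h2 h3 =>
    Nf.main hSubA hSubB R a b c d m β γ ha hd h1 h2 h3⟩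

end Pool.Agent.Helper6.W3
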